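import Pool.Agent.Q2.PM.Stm

open Subgroup Q2.TN Q2.PM

namespace Pool.Agent.Q214.PM

/-- a nontrivial normal subgroup of a finite 2-group contains a central element of order 2 -/
theorem central_two (Q : Type) [Group Q] [Finite Q] (hQ : IsPGroup 2 Q) (V : Subgroup Q)
    [V.Normal] (hV : V ≠ ⊥) :
    ∃ z ∈ V, z ≠ 1 ∧ z * z = 1 ∧ ∀ y : Q, y * z = z * y := by
  have : Fact (Nat.Prime 2) := ⟨Nat.prime_two⟩
  have hd : ∀ U : Subgroup Q, U ≠ ⊥ → 2 ∣ Nat.card U := by
    intro U hU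
    rcases (hQ.to_subgroup U).card_eq_or_dvd with h | h
    · exact absurd (Subgroup.card_eq_one.mp h) hU
    · exact h
  have h1 : (1 : V) ∈ MulAction.fixedPoints (ConjAct Q) V := fun g => smul_one g
  obtain ⟨b, hb, hb1⟩ :=
    (hQ.of_equiv ConjAct.toConjAct).exists_fixed_point_of_prime_dvd_card_of_fixed_point V
      (hd V hV) h1
  have hbc : (b : Q) ∈ center Q := by
    rw [mem_center_iff]
    intro y
    have h2 := congrArg Subtype.val (hb (ConjAct.toConjAct y))
    rw [ConjAct.Subgroup.val_conj_smul, ConjAct.smul_def, ConjAct.ofConjAct_toConjAct] at h2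
    exact mul_inv_eq_iff_eq_mul.mp h2
  have hZ : V ⊓ center Q ≠ ⊥ := by
    intro h
    have h3 : (b : Q) ∈ V ⊓ center Q := ⟨b.2, hbc⟩
    rw [h] at h3
    exact hb1 (Subtype.ext (mem_bot.mp h3).symm)
  obtain ⟨z, hz⟩ := exists_prime_orderOf_dvd_card' 2 (hd _ hZ)
  refine ⟨z, z.2.1, ?_, ?_, fun y => mem_center_iff.mp z.2.2 y⟩
  · intro h
    have h4 : z = 1 := Subtype.ext h
    rw [h4, orderOf_one] at hz
    exact absurd hz (by norm_num)
  · have h5 := pow_orderOf_eq_one z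
    rw [hz, pow_two] at h5
    exact congrArg Subtype.val h5

theorem exists_mod (W : Type) [Group W] [Finite W] (hW : IsPGroup 2 W) (M V : Subgroup W)
    [M.Normal] [V.Normal] (h : M < V) :
    ∃ x ∈ V, x ∉ M ∧ x * x ∈ M ∧ ∀ y : W, y * x * y⁻¹ * x⁻¹ ∈ M := by
  have hn : (V.map (QuotientGroup.mk' M)).Normal :=
    Normal.map inferInstance _ (QuotientGroup.mk'_surjective M)
  have hne : V.map (QuotientGroup.mk' M) ≠ ⊥ := by
    rw [Ne, Subgroup.map_eq_bot_iff, QuotientGroup.ker_mk']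
    exact not_le_of_gt h
  obtain ⟨z, hz, hz1, hz2, hzc⟩ := central_two (W ⧸ M) (hW.to_quotient M) _ hne
  obtain ⟨x, hx, rfl⟩ := hz
  refine ⟨x, hx, ?_, ?_, ?_⟩
  · intro hxM
    exact hz1 ((QuotientGroup.eq_one_iff x).mpr hxM)
  · exact (QuotientGroup.eq_one_iff _).mp hz2
  · intro y
    have h1 := hzc (QuotientGroup.mk' M y)
    refine (QuotientGroup.eq_one_iff _).mp ?_
    change QuotientGroup.mk' M (y * x * y⁻¹ * x⁻¹) = 1
    rw [map_mul, map_mul, map_mul, map_inv, map_inv, h1]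
    group

theorem b2 : Q2.PM.S_B2 := by
  intro G _ _ M V P hM hV hlt hVp hPp
  have := hM
  have := hV
  have hW : IsPGroup 2 (P ⊔ V : Subgroup G) := hPp.to_sup_of_normal_right hVp
  have hVW : V ≤ P ⊔ V := le_sup_right
  have hlt' : M.subgroupOf (P ⊔ V) < V.subgroupOf (P ⊔ V) := by
    refine lt_of_le_of_ne (fun x hx => hlt.le hx) ?_
    intro h
    obtain ⟨x, hxV, hxM⟩ := SetLike.exists_of_lt hlt
    have h1 : (⟨x, hVW hxV⟩ : (P ⊔ V : Subgroup G)) ∈ V.subgroupOf (P ⊔ V) := hxV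
    rw [← h] at h1
    exact hxM h1
  obtain ⟨x, hxV, hxM, hxx, hc⟩ := exists_mod _ hW (M.subgroupOf (P ⊔ V))
    (V.subgroupOf (P ⊔ V)) hlt'
  exact ⟨x, hxV, hxM, hxx, fun y hy => hc ⟨y, (le_sup_left : P ≤ P ⊔ V) hy⟩⟩

theorem chain (W : Type) [Group W] [Finite W] (hW : IsPGroup 2 W) (T : Subgroup W) [T.Normal]
    (k : ℕ) : 2 ^ k ≤ Nat.card T → ∃ A : Subgroup W, A ≤ T ∧ A.Normal ∧ Nat.card A = 2 ^ k := by
  have : Fact (Nat.Prime 2) := ⟨Nat.prime_two⟩
  induction k with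
  | zero => intro _; exact ⟨⊥, bot_le, inferInstance, by simp⟩
  | succ k ih =>
    intro hk
    have hkk : 2 ^ k < 2 ^ (k + 1) := Nat.pow_lt_pow_right (by norm_num) (Nat.lt_succ_self k)
    obtain ⟨A, hAT, hAn, hAc⟩ := ih (le_trans hkk.le hk)
    have := hAn
    have hlt : A < T := by
      refine lt_of_le_of_ne hAT ?_
      intro h
      rw [← h, hAc] at hk
      exact absurd hk (not_le.mpr hkk)
    obtain ⟨x, hxT, hxA, hxx, hc⟩ := exists_mod W hW A T hlt
    obtain ⟨z, hz⟩ : ∃ z : W ⧸ A, z = QuotientGroup.mk' A x := ⟨_, rfl⟩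
    have hz1 : z ≠ 1 := by
      rw [hz]
      intro h
      exact hxA ((QuotientGroup.eq_one_iff x).mp h)
    have hz2 : z ^ 2 = 1 := by
      rw [hz, pow_two]
      exact (QuotientGroup.eq_one_iff (x * x)).mpr hxx
    have hzc : ∀ y : W ⧸ A, Commute y z := by
      intro y
      obtain ⟨y, rfl⟩ := QuotientGroup.mk'_surjective A y
      have h1 : QuotientGroup.mk' A (y * x * y⁻¹ * x⁻¹) = 1 :=
        (QuotientGroup.eq_one_iff _).mpr (hc y)
      rw [map_mul, map_mul, map_mul, map_inv, map_inv, ← hz] at h1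
      have h2 := mul_inv_eq_one.mp h1
      exact mul_inv_eq_iff_eq_mul.mp h2
    have hord : orderOf z = 2 := orderOf_eq_prime hz2 hz1
    have hn : (zpowers z).Normal := by
      constructor
      intro m hm g
      obtain ⟨i, rfl⟩ := mem_zpowers_iff.mp hm
      have h1 : g * z ^ i * g⁻¹ = z ^ i := by
        rw [((hzc g).zpow_right i).eq, mul_inv_cancel_right]
      rw [h1]
      exact hm
    refine ⟨(zpowers z).comap (QuotientGroup.mk' A), ?_, Normal.comap hn _, ?_⟩
    · have h1 : zpowers z ≤ T.map (QuotientGroup.mk' A) := by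
        rw [zpowers_le, hz]
        exact mem_map_of_mem _ hxT
      have h2 := comap_mono (f := QuotientGroup.mk' A) h1
      rwa [comap_map_eq, QuotientGroup.ker_mk', sup_eq_left.mpr hAT] at h2
    · have h1 : ((zpowers z).comap (QuotientGroup.mk' A)).index = (zpowers z).index :=
        index_comap_of_surjective _ (QuotientGroup.mk'_surjective A)
      have h2 := card_mul_index ((zpowers z).comap (QuotientGroup.mk' A))
      have h3 := card_mul_index (zpowers z)
      have h4 := card_eq_card_quotient_mul_card_subgroup A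
      rw [h1] at h2
      rw [Nat.card_zpowers, hord] at h3
      rw [← h3, hAc] at h4
      rw [h4] at h2
      have h5 : 0 < (zpowers z).index := Nat.pos_of_ne_zero index_ne_zero_of_finite
      have h6 : Nat.card ((zpowers z).comap (QuotientGroup.mk' A)) * (zpowers z).index =
          2 ^ (k + 1) * (zpowers z).index := by
        rw [h2]; ring
      exact Nat.eq_of_mul_eq_mul_right h5 h6

theorem b3 : Q2.PM.S_B3 := by
  intro k G _ _ T P hT hTp hPp hk
  have := hT
  have hW : IsPGroup 2 (P ⊔ T : Subgroup G) := hPp.to_sup_of_normal_right hTp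
  have hTW : T ≤ P ⊔ T := le_sup_right
  have hcT : Nat.card (T.subgroupOf (P ⊔ T)) = Nat.card T :=
    Nat.card_congr (subgroupOfEquivOfLe hTW).toEquiv
  obtain ⟨A, hAT, hAn, hAc⟩ := chain _ hW (T.subgroupOf (P ⊔ T)) k (by rw [hcT]; exact hk)
  refine ⟨A.map (P ⊔ T : Subgroup G).subtype, ?_, ?_, ?_⟩
  · rintro _ ⟨a, ha, rfl⟩
    exact hAT ha
  · rw [← hAc]
    exact (Nat.card_congr (A.equivMapOfInjective _ (subtype_injective _)).toEquiv).symm
  · have key : ∀ w ∈ (P ⊔ T : Subgroup G), ∀ h ∈ A.map (P ⊔ T : Subgroup G).subtype,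
        w * h * w⁻¹ ∈ A.map (P ⊔ T : Subgroup G).subtype := by
      rintro w hw _ ⟨a, ha, rfl⟩
      exact ⟨⟨w, hw⟩ * a * ⟨w, hw⟩⁻¹, hAn.conj_mem a ha _, rfl⟩
    intro p hp
    have hpW : p ∈ P ⊔ T := (le_sup_left : P ≤ P ⊔ T) hp
    rw [mem_normalizer_iff]
    intro h
    refine ⟨key p hpW h, fun h2 => ?_⟩
    have h3 := key p⁻¹ (inv_mem hpW) _ h2
    have h4 : p⁻¹ * (p * h * p⁻¹) * p⁻¹⁻¹ = h := by group
    rwa [h4] at h3

end Pool.Agent.Q214.PM
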